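import Mathlib

/-!
Limiting backward orbits of a bounded real sequence, along an ultrafilter.
-/

namespace Pool.Agent.V11298

open Filter Topology

/-- Along an ultrafilter every bounded real function has a limit. -/
theorem exists_ultralimit {U : Ultrafilter ℕ} {f : ℕ → ℝ} {a b : ℝ} (ha : ∀ n, a ≤ f n)
    (hb : ∀ n, f n ≤ b) : ∃ l, Tendsto f U (𝓝 l) := by
  obtain ⟨l, -, hl⟩ := (isCompact_Icc (a := a) (b := b)).ultrafilter_le_nhds (U.map f)
    (tendsto_principal.2 (Filter.Eventually.of_forall fun n => ⟨ha n, hb n⟩))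
  exact ⟨l, hl⟩

theorem tendsto_sub_const_atTop (m : ℕ) : Tendsto (fun n : ℕ => n - m) atTop atTop := by
  refine tendsto_atTop.2 fun b => ?_
  filter_upwards [eventually_ge_atTop (b + m)] with n hn
  omega

/-- The limiting backward orbit at the superior limit. -/
theorem exists_limit_orbit_sup {x : ℕ → ℝ} {a b : ℝ} (ha : ∀ n, a ≤ x n) (hb : ∀ n, x n ≤ b) :
    ∃ (M : ℝ) (U : Ultrafilter ℕ) (L : ℕ → ℝ), (U : Filter ℕ) ≤ atTop ∧
      (∀ m, Tendsto (fun n => x (n - m)) U (𝓝 (L m))) ∧ L 0 = M ∧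
      (∀ ε > 0, ∀ᶠ n in atTop, x n < M + ε) := by
  have hbd : IsBoundedUnder (· ≤ ·) atTop x := isBoundedUnder_of ⟨b, hb⟩
  have hcb : IsCoboundedUnder (· ≤ ·) atTop x :=
    (isBoundedUnder_of ⟨a, ha⟩ : IsBoundedUnder (· ≥ ·) atTop x).isCoboundedUnder_le
  set M := limsup x atTop with hM
  have h1 : ∀ ε > 0, ∀ᶠ n in atTop, x n < M + ε := fun ε hε =>
    eventually_lt_of_limsup_lt (by linarith) hbd
  have h2 : ∀ ε > 0, ∃ᶠ n in atTop, M - ε < x n := fun ε hε =>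
    frequently_lt_of_lt_limsup hcb (by linarith)
  have h3 : MapClusterPt M atTop x := by
    rw [Metric.nhds_basis_ball.mapClusterPt_iff_frequently]
    intro ε hε
    refine ((h2 ε hε).and_eventually (h1 ε hε)).mono fun n hn => ?_
    rw [Metric.mem_ball, Real.dist_eq, abs_lt]
    constructor <;> linarith [hn.1, hn.2]
  obtain ⟨U, hU, hUM⟩ := mapClusterPt_iff_ultrafilter.1 h3
  have h4 : ∀ m, ∃ l, Tendsto (fun n => x (n - m)) U (𝓝 l) := fun m =>
    exists_ultralimit (fun n => ha _) (fun n => hb _)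
  choose L hL using h4
  refine ⟨M, U, L, hU, hL, ?_, h1⟩
  exact tendsto_nhds_unique (hL 0) hUM

/-- The limiting backward orbit at the inferior limit. -/
theorem exists_limit_orbit_inf {x : ℕ → ℝ} {a b : ℝ} (ha : ∀ n, a ≤ x n) (hb : ∀ n, x n ≤ b) :
    ∃ (M : ℝ) (U : Ultrafilter ℕ) (L : ℕ → ℝ), (U : Filter ℕ) ≤ atTop ∧
      (∀ m, Tendsto (fun n => x (n - m)) U (𝓝 (L m))) ∧ L 0 = M ∧
      (∀ ε > 0, ∀ᶠ n in atTop, M - ε < x n) := by
  obtain ⟨M, U, L, hU, hL, h0, hε⟩ := exists_limit_orbit_sup (x := fun n => -x n) (a := -b)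
    (b := -a) (fun n => by linarith [hb n]) (fun n => by linarith [ha n])
  refine ⟨-M, U, fun m => -L m, hU, fun m => ?_, by simp [h0], fun ε hε' => ?_⟩
  · simpa using (hL m).neg
  · filter_upwards [hε ε hε'] with n hn
    linarith

theorem limit_le {x : ℕ → ℝ} {M : ℝ} {U : Ultrafilter ℕ} {L : ℕ → ℝ}
    (hU : (U : Filter ℕ) ≤ atTop) (hL : ∀ m, Tendsto (fun n => x (n - m)) U (𝓝 (L m)))
    (hε : ∀ ε > 0, ∀ᶠ n in atTop, x n < M + ε) (m : ℕ) : L m ≤ M := by
  refine le_of_forall_pos_le_add fun ε hε' => ?_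
  refine le_of_tendsto (hL m) ?_
  have h := (tendsto_sub_const_atTop m).eventually (hε ε hε')
  filter_upwards [hU h] with n hn
  exact hn.le

theorem le_limit {x : ℕ → ℝ} {M : ℝ} {U : Ultrafilter ℕ} {L : ℕ → ℝ}
    (hU : (U : Filter ℕ) ≤ atTop) (hL : ∀ m, Tendsto (fun n => x (n - m)) U (𝓝 (L m)))
    (hε : ∀ ε > 0, ∀ᶠ n in atTop, M - ε < x n) (m : ℕ) : M ≤ L m := by
  refine le_of_forall_pos_sub_le fun ε hε' => ?_
  refine ge_of_tendsto (hL m) ?_
  have h := (tendsto_sub_const_atTop m).eventually (hε ε hε')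
  filter_upwards [hU h] with n hn
  exact hn.le

end Pool.Agent.V11298
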