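import Mathlib

/-!
The propositional ontology `L1` and translations into normal modal logics.
-/

namespace Pool.Agent.V11298.OntologyModal

/-- Formulas of the propositional ontology: atoms `eps a b` for name variables `a b : ℕ`. -/
inductive LForm : Type
  | eps : ℕ → ℕ → LForm
  | neg : LForm → LForm
  | or : LForm → LForm → LForm

namespace LForm

/-- Implication, as an abbreviation. -/
def imp (φ ψ : LForm) : LForm := or (neg φ) ψ

/-- Conjunction, as an abbreviation. -/
def and (φ ψ : LForm) : LForm := neg (or (neg φ) (neg ψ))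

/-- The classical truth value of a formula for a truth assignment to the atoms. -/
def eval (v : ℕ → ℕ → Prop) : LForm → Prop
  | eps a b => v a b
  | neg φ => ¬ φ.eval v
  | or φ ψ => φ.eval v ∨ ψ.eval v

end LForm

/-- The theorems of `L1`: instances of tautologies, the three schemata, modus ponens. -/
inductive L1 : LForm → Prop
  | taut {φ : LForm} : (∀ v, φ.eval v) → L1 φ
  | ax1 (a b : ℕ) : L1 (LForm.imp (LForm.eps a b) (LForm.eps a a))
  | ax2 (a b c : ℕ) :
      L1 (LForm.imp (LForm.and (LForm.eps a b) (LForm.eps b c)) (LForm.eps a c))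
  | ax3 (a b c : ℕ) :
      L1 (LForm.imp (LForm.and (LForm.eps a b) (LForm.eps b c)) (LForm.eps b a))
  | mp {φ ψ : LForm} : L1 (LForm.imp φ ψ) → L1 φ → L1 ψ

/-- Modal formulas with propositional variables in `V`. -/
inductive MForm (V : Type) : Type
  | var : V → MForm V
  | neg : MForm V → MForm V
  | or : MForm V → MForm V → MForm V
  | box : MForm V → MForm V

namespace MForm

variable {V W : Type}

/-- Implication, as an abbreviation. -/
def imp (φ ψ : MForm V) : MForm V := or (neg φ) ψ

/-- Conjunction, as an abbreviation. -/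
def and (φ ψ : MForm V) : MForm V := neg (or (neg φ) (neg ψ))

/-- The diamond, as an abbreviation. -/
def dia (φ : MForm V) : MForm V := neg (box (neg φ))

/-- Uniform substitution of modal formulas for propositional variables. -/
def subst (σ : V → MForm W) : MForm V → MForm W
  | var p => σ p
  | neg φ => neg (φ.subst σ)
  | or φ ψ => or (φ.subst σ) (ψ.subst σ)
  | box φ => box (φ.subst σ)

/-- The classical truth value of a modal formula, when the variables and the formulas that begin
with a box are treated as atoms, with truth values given by `v`. -/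
def eval (v : MForm V → Prop) : MForm V → Prop
  | var p => v (var p)
  | neg φ => ¬ φ.eval v
  | or φ ψ => φ.eval v ∨ ψ.eval v
  | box φ => v (box φ)

/-- Instances of classical tautologies. -/
def Tautology (φ : MForm V) : Prop := ∀ v : MForm V → Prop, φ.eval v

end MForm

open MForm in
/-- The theorems of the smallest normal modal logic (containing the tautologies and the formula
`K`, closed under modus ponens, necessitation and uniform substitution) that contains the
formulas in `Ax`. -/
inductive Prov (Ax : MForm ℕ → Prop) : MForm ℕ → Prop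
  | taut {φ : MForm ℕ} : φ.Tautology → Prov Ax φ
  | ax {φ : MForm ℕ} : Ax φ → Prov Ax φ
  | k : Prov Ax (imp (box (imp (var 0) (var 1))) (imp (box (var 0)) (box (var 1))))
  | mp {φ ψ : MForm ℕ} : Prov Ax (imp φ ψ) → Prov Ax φ → Prov Ax ψ
  | nec {φ : MForm ℕ} : Prov Ax φ → Prov Ax (box φ)
  | sub {φ : MForm ℕ} (σ : ℕ → MForm ℕ) : Prov Ax φ → Prov Ax (φ.subst σ)

/-- The translation from formulas of `L1` to modal formulas given by a modal formula `χ` in two
propositional variables and an assignment `p` of propositional variables to name variables. -/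
def translate (χ : MForm (Fin 2)) (p : ℕ → ℕ) : LForm → MForm ℕ
  | LForm.eps a b => χ.subst ![MForm.var (p a), MForm.var (p b)]
  | LForm.neg φ => MForm.neg (translate χ p φ)
  | LForm.or φ ψ => MForm.or (translate χ p φ) (translate χ p ψ)

open MForm in
/-- The additional axioms of `S4.2`. -/
def AxS42 (φ : MForm ℕ) : Prop :=
  φ = imp (box (var 0)) (var 0) ∨ φ = imp (box (var 0)) (box (box (var 0))) ∨
    φ = imp (dia (box (var 0))) (box (dia (var 0)))

open MForm in
/-- The additional axiom of Grzegorczyk's logic. -/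
def AxGrz (φ : MForm ℕ) : Prop :=
  φ = imp (box (imp (box (imp (var 0) (box (var 0)))) (var 0))) (var 0)

/-! ### The formula -/

open MForm in
/-- The formula `¬x ∧ ((¬y ∧ □(x → y) ∧ □(y → x)) ∨ (y ∧ □(x → y)))`. -/
def chi : MForm (Fin 2) :=
  and (neg (var 0))
    (or (and (neg (var 1)) (and (box (imp (var 0) (var 1))) (box (imp (var 1) (var 0)))))
      (and (var 1) (box (imp (var 0) (var 1)))))

/-! ### Completeness of `L1` for relations -/

lemma L1.of_list (L : List LForm) (hL : ∀ ψ ∈ L, L1 ψ) (φ : LForm)
    (h : ∀ v, (∀ ψ ∈ L, ψ.eval v) → φ.eval v) : L1 φ := by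
  induction L generalizing φ with
  | nil => exact L1.taut (fun v => h v (by simp))
  | cons ψ L ih =>
    have h1 : L1 (LForm.imp ψ φ) := by
      apply ih (fun χ hχ => hL χ (List.mem_cons_of_mem _ hχ))
      intro v hv
      simp only [LForm.imp, LForm.eval]
      by_cases hψ : ψ.eval v
      · right
        apply h v
        intro χ hχ
        rcases List.mem_cons.1 hχ with rfl | hχ
        · exact hψ
        · exact hv χ hχ
      · left; exact hψ
    exact L1.mp h1 (hL ψ (by simp))

lemma isClopen_eval (φ : LForm) :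
    IsClopen {v : ℕ → ℕ → Bool | φ.eval (fun a b => v a b = true)} := by
  induction φ with
  | eps a b =>
    have : {v : ℕ → ℕ → Bool | LForm.eval (fun a b => v a b = true) (LForm.eps a b)} =
        (fun v : ℕ → ℕ → Bool => v a b) ⁻¹' {true} := by
      ext v; simp [LForm.eval]
    rw [this]
    exact (isClopen_discrete _).preimage (by fun_prop)
  | neg φ ih =>
    have : {v : ℕ → ℕ → Bool | LForm.eval (fun a b => v a b = true) (LForm.neg φ)} =
        {v : ℕ → ℕ → Bool | φ.eval (fun a b => v a b = true)}ᶜ := by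
      ext v; simp [LForm.eval]
    rw [this]
    exact ih.compl
  | or φ ψ ih1 ih2 =>
    have : {v : ℕ → ℕ → Bool | LForm.eval (fun a b => v a b = true) (LForm.or φ ψ)} =
        {v : ℕ → ℕ → Bool | φ.eval (fun a b => v a b = true)} ∪
        {v : ℕ → ℕ → Bool | ψ.eval (fun a b => v a b = true)} := by
      ext v; simp [LForm.eval]
    rw [this]
    exact ih1.union ih2

lemma exists_valuation {φ : LForm} (hφ : ¬ L1 φ) :
    ∃ v : ℕ → ℕ → Prop, (∀ ψ, L1 ψ → ψ.eval v) ∧ ¬ φ.eval v := by
  classical
  have hc : IsCompact {v : ℕ → ℕ → Bool | LForm.eval (fun a b => v a b = true) (LForm.neg φ)} :=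
    (isClopen_eval _).isClosed.isCompact
  have := hc.inter_iInter_nonempty
    (fun ψ : {ψ // L1 ψ} => {v : ℕ → ℕ → Bool | ψ.1.eval (fun a b => v a b = true)})
    (fun ψ => (isClopen_eval _).isClosed) ?_
  · obtain ⟨v, hv1, hv2⟩ := this
    refine ⟨fun a b => v a b = true, ?_, hv1⟩
    intro ψ hψ
    exact (Set.mem_iInter.1 hv2) ⟨ψ, hψ⟩
  · intro u
    by_contra hcon
    apply hφ
    apply L1.of_list (u.toList.map Subtype.val)
    · intro ψ hψ
      obtain ⟨χ, -, rfl⟩ := List.mem_map.1 hψ
      exact χ.2
    · intro v hv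
      by_contra hφv
      apply hcon
      have hv' : (fun a b => (decide (v a b)) = true) = v := by
        funext a b; simp
      refine ⟨fun a b => decide (v a b), ?_, ?_⟩
      · show LForm.eval (fun a b => (decide (v a b)) = true) (LForm.neg φ)
        rw [hv']; exact hφv
      · simp only [Set.mem_iInter]
        intro ψ hψ
        show LForm.eval (fun a b => (decide (v a b)) = true) ψ.1
        rw [hv']
        exact hv _ (List.mem_map.2 ⟨ψ, by simpa using hψ, rfl⟩)

/-! ### The frame -/

/-- The points of the frame: a root, countably many middle points, a top. -/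
inductive Pt : Type
  | root : Pt
  | mid : ℕ → Pt
  | top : Pt

/-- The accessibility relation. -/
def Acc (x y : Pt) : Prop := x = y ∨ x = Pt.root ∨ y = Pt.top

/-- Truth at a point of the frame. -/
def Sat (V : Pt → ℕ → Prop) (x : Pt) : MForm ℕ → Prop
  | MForm.var p => V x p
  | MForm.neg φ => ¬ Sat V x φ
  | MForm.or φ ψ => Sat V x φ ∨ Sat V x ψ
  | MForm.box φ => ∀ y, Acc x y → Sat V y φ

lemma sat_imp (V : Pt → ℕ → Prop) (x : Pt) (φ ψ : MForm ℕ) :
    Sat V x (MForm.imp φ ψ) ↔ (Sat V x φ → Sat V x ψ) := by
  simp only [MForm.imp, Sat]; tauto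

lemma sat_and (V : Pt → ℕ → Prop) (x : Pt) (φ ψ : MForm ℕ) :
    Sat V x (MForm.and φ ψ) ↔ (Sat V x φ ∧ Sat V x ψ) := by
  simp only [MForm.and, Sat]; tauto

lemma sat_subst (V : Pt → ℕ → Prop) (σ : ℕ → MForm ℕ) (x : Pt) (φ : MForm ℕ) :
    Sat V x (φ.subst σ) ↔ Sat (fun y p => Sat V y (σ p)) x φ := by
  induction φ generalizing x with
  | var p => rfl
  | neg φ ih => simp only [MForm.subst, Sat, ih]
  | or φ ψ ih1 ih2 => simp only [MForm.subst, Sat, ih1, ih2]
  | box φ ih => simp only [MForm.subst, Sat, ih]

lemma acc_refl (x : Pt) : Acc x x := Or.inl rfl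

lemma acc_trans {x y z : Pt} (h1 : Acc x y) (h2 : Acc y z) : Acc x z := by
  unfold Acc at *
  rcases h1 with rfl | rfl | rfl
  · exact h2
  · exact Or.inr (Or.inl rfl)
  · rcases h2 with rfl | h | rfl
    · exact Or.inr (Or.inr rfl)
    · exact absurd h (by simp)
    · exact Or.inr (Or.inr rfl)

lemma eval_eq_sat (V : Pt → ℕ → Prop) (x : Pt) (φ : MForm ℕ) :
    φ.eval (fun ψ => Sat V x ψ) ↔ Sat V x φ := by
  induction φ with
  | var p => rfl
  | neg φ ih => simp only [MForm.eval, Sat, ih]
  | or φ ψ ih1 ih2 => simp only [MForm.eval, Sat, ih1, ih2]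
  | box φ ih => rfl

lemma sound {Ax : MForm ℕ → Prop} (hAx : ∀ φ, Ax φ → ∀ V x, Sat V x φ) {φ : MForm ℕ}
    (h : Prov Ax φ) : ∀ V x, Sat V x φ := by
  induction h with
  | taut h => intro V x; exact (eval_eq_sat V x _).1 (h _)
  | ax h => exact hAx _ h
  | k =>
    intro V x
    simp only [sat_imp, Sat]
    intro h1 h2 y hy
    exact h1 y hy (h2 y hy)
  | mp _ _ ih1 ih2 =>
    intro V x
    exact (sat_imp V x _ _).1 (ih1 V x) (ih2 V x)
  | nec _ ih =>
    intro V x y _
    exact ih V y
  | sub σ _ ih =>
    intro V x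
    exact (sat_subst V σ x _).2 (ih _ x)

lemma valid_S42 : ∀ φ, AxS42 φ → ∀ V x, Sat V x φ := by
  rintro φ (rfl | rfl | rfl) V x
  · simp only [sat_imp, Sat]
    intro h; exact h x (acc_refl x)
  · simp only [sat_imp, Sat]
    intro h y hy z hz
    exact h z (acc_trans hy hz)
  · simp only [sat_imp, MForm.dia, Sat]
    intro h y _ hcon
    apply h
    intro z _ hz
    exact hcon Pt.top (Or.inr (Or.inr rfl)) (hz Pt.top (Or.inr (Or.inr rfl)))

lemma valid_Grz : ∀ φ, AxGrz φ → ∀ V x, Sat V x φ := by
  rintro φ rfl V x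
  simp only [sat_imp, Sat]
  intro h
  -- the top
  have htop : V Pt.top 0 := by
    apply h Pt.top (Or.inr (Or.inr rfl))
    intro y hy hVy z hz
    have h1 : y = Pt.top := by
      rcases hy with h | h | h
      · exact h.symm
      · exact absurd h (by simp)
      · exact h
    subst h1
    have h2 : z = Pt.top := by
      rcases hz with h | h | h
      · exact h.symm
      · exact absurd h (by simp)
      · exact h
    subst h2
    exact hVy
  have hmid : ∀ n, Acc x (Pt.mid n) → V (Pt.mid n) 0 := by
    intro n hn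
    apply h _ hn
    intro y hy hVy z hz
    rcases hz with h | h | h
    · subst h; exact hVy
    · subst h
      rcases hy with h | h | h
      · exact absurd h (by simp)
      · exact absurd h (by simp)
      · exact absurd h (by simp)
    · subst h; exact htop
  cases x with
  | top => exact htop
  | mid n => exact hmid n (acc_refl _)
  | root =>
    apply h _ (acc_refl _)
    intro y _ hVy z _
    cases z with
    | top => exact htop
    | mid n => exact hmid n (Or.inr (Or.inl rfl))
    | root =>
      rename_i hyy hzz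
      rcases hzz with h | h | h
      · subst h; exact hVy
      · subst h; exact hVy
      · exact absurd h (by simp)

/-! ### Soundness of the translation in every normal modal logic -/

lemma Prov.box_mono {Ax : MForm ℕ → Prop} {φ ψ : MForm ℕ} (h : Prov Ax (MForm.imp φ ψ)) :
    Prov Ax (MForm.imp (MForm.box φ) (MForm.box ψ)) := by
  have h1 := Prov.sub (Ax := Ax) (fun n => if n = 0 then φ else ψ) Prov.k
  have h2 : Prov Ax (MForm.imp (MForm.box (MForm.imp φ ψ))
      (MForm.imp (MForm.box φ) (MForm.box ψ))) := by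
    simpa [MForm.imp, MForm.subst] using h1
  exact Prov.mp h2 (Prov.nec h)

lemma Prov.box_comp {Ax : MForm ℕ → Prop} (φ ψ χ : MForm ℕ) :
    Prov Ax (MForm.imp (MForm.box (MForm.imp φ ψ))
      (MForm.imp (MForm.box (MForm.imp ψ χ)) (MForm.box (MForm.imp φ χ)))) := by
  -- from `(φ → ψ) → ((ψ → χ) → (φ → χ))`
  have h1 : Prov Ax (MForm.imp (MForm.box (MForm.imp φ ψ))
      (MForm.box (MForm.imp (MForm.imp ψ χ) (MForm.imp φ χ)))) := by
    apply Prov.box_mono
    apply Prov.taut
    intro v
    simp only [MForm.imp, MForm.eval]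
    tauto
  have h2 : Prov Ax (MForm.imp (MForm.box (MForm.imp (MForm.imp ψ χ) (MForm.imp φ χ)))
      (MForm.imp (MForm.box (MForm.imp ψ χ)) (MForm.box (MForm.imp φ χ)))) := by
    have := Prov.sub (Ax := Ax)
      (fun n => if n = 0 then MForm.imp ψ χ else MForm.imp φ χ) Prov.k
    simpa [MForm.imp, MForm.subst] using this
  refine Prov.mp (Prov.mp (Prov.taut ?_) h1) h2
  intro v
  simp only [MForm.imp, MForm.eval]
  tauto

lemma Prov.box_self {Ax : MForm ℕ → Prop} (φ : MForm ℕ) :
    Prov Ax (MForm.box (MForm.imp φ φ)) := by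
  apply Prov.nec
  apply Prov.taut
  intro v
  simp only [MForm.imp, MForm.eval]
  tauto

lemma eval_translate (χ : MForm (Fin 2)) (p : ℕ → ℕ) (v : MForm ℕ → Prop) (φ : LForm) :
    (translate χ p φ).eval v ↔
      φ.eval (fun a b => (χ.subst ![MForm.var (p a), MForm.var (p b)]).eval v) := by
  induction φ with
  | eps a b => rfl
  | neg φ ih => simp only [translate, MForm.eval, LForm.eval, ih]
  | or φ ψ ih1 ih2 => simp only [translate, MForm.eval, LForm.eval, ih1, ih2]

lemma chi_subst (x y : MForm ℕ) : chi.subst ![x, y] =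
    MForm.and (MForm.neg x)
    (MForm.or (MForm.and (MForm.neg y)
      (MForm.and (MForm.box (MForm.imp x y)) (MForm.box (MForm.imp y x))))
      (MForm.and y (MForm.box (MForm.imp x y)))) := by
  simp [chi, MForm.subst, MForm.and, MForm.imp]

lemma translate_sound {Ax : MForm ℕ → Prop} (p : ℕ → ℕ) {φ : LForm} (h : L1 φ) :
    Prov Ax (translate chi p φ) := by
  induction h with
  | taut h =>
    apply Prov.taut
    intro v
    rw [eval_translate]
    exact h _
  | ax1 a b =>
    simp only [LForm.imp, translate, chi_subst]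
    refine Prov.mp (Prov.taut ?_) (Prov.box_self (Ax := Ax) (MForm.var (p a)))
    intro v
    simp only [MForm.imp, MForm.and, MForm.eval]
    tauto
  | ax2 a b c =>
    simp only [LForm.imp, LForm.and, translate, chi_subst]
    refine Prov.mp (Prov.mp (Prov.taut ?_)
      (Prov.box_comp (Ax := Ax) (MForm.var (p a)) (MForm.var (p b)) (MForm.var (p c))))
      (Prov.box_comp (Ax := Ax) (MForm.var (p c)) (MForm.var (p b)) (MForm.var (p a)))
    intro v
    simp only [MForm.imp, MForm.and, MForm.eval]
    tauto
  | ax3 a b c =>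
    simp only [LForm.imp, LForm.and, translate, chi_subst]
    apply Prov.taut
    intro v
    simp only [MForm.imp, MForm.and, MForm.eval]
    tauto
  | mp _ _ ih1 ih2 => exact Prov.mp ih1 ih2

/-! ### Faithfulness -/

lemma sat_translate (χ : MForm (Fin 2)) (p : ℕ → ℕ) (V : Pt → ℕ → Prop) (x : Pt) (φ : LForm) :
    Sat V x (translate χ p φ) ↔
      φ.eval (fun a b => Sat V x (χ.subst ![MForm.var (p a), MForm.var (p b)])) := by
  induction φ with
  | eps a b => rfl
  | neg φ ih => simp only [translate, Sat, LForm.eval, ih]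
  | or φ ψ ih1 ih2 => simp only [translate, Sat, LForm.eval, ih1, ih2]

lemma translate_faithful {Ax : MForm ℕ → Prop} (hAx : ∀ φ, Ax φ → ∀ V x, Sat V x φ)
    (p : ℕ → ℕ) (hp : Function.Injective p) {φ : LForm} (h : Prov Ax (translate chi p φ)) :
    L1 φ := by
  by_contra hφ
  obtain ⟨E, hE, hEφ⟩ := exists_valuation hφ
  have e1 : ∀ a b, E a b → E a a := by
    intro a b
    have := hE _ (L1.ax1 a b)
    simp only [LForm.imp, LForm.eval] at this
    tauto
  have e2 : ∀ a b c, E a b → E b c → E a c := by
    intro a b c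
    have := hE _ (L1.ax2 a b c)
    simp only [LForm.imp, LForm.and, LForm.eval] at this
    tauto
  have e3 : ∀ a b c, E a b → E b c → E b a := by
    intro a b c
    have := hE _ (L1.ax3 a b c)
    simp only [LForm.imp, LForm.and, LForm.eval] at this
    tauto
  let V : Pt → ℕ → Prop := fun x n =>
    match x with
    | Pt.root => ∃ a, p a = n ∧ ¬ E a a
    | Pt.mid c => ∃ a, p a = n ∧ E c a
    | Pt.top => False
  have hroot : ∀ a, V Pt.root (p a) ↔ ¬ E a a := by
    intro a
    constructor
    · rintro ⟨b, hb, h⟩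
      rw [hp hb] at h; exact h
    · intro h; exact ⟨a, rfl, h⟩
  have hmid : ∀ c a, V (Pt.mid c) (p a) ↔ E c a := by
    intro c a
    constructor
    · rintro ⟨b, hb, h⟩
      rw [hp hb] at h; exact h
    · intro h; exact ⟨a, rfl, h⟩
  have htop : ∀ a, V Pt.top (p a) ↔ False := fun a => Iff.rfl
  have hkey : ∀ a b, Sat V Pt.root (chi.subst ![MForm.var (p a), MForm.var (p b)]) ↔ E a b := by
    intro a b
    have hbox : ∀ a b, (∀ y, Acc Pt.root y → Sat V y (MForm.var (p a)) →
        Sat V y (MForm.var (p b))) ↔ ((¬ E a a → ¬ E b b) ∧ ∀ c, E c a → E c b) := by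
      intro a b
      constructor
      · intro h
        refine ⟨?_, ?_⟩
        · intro ha
          exact (hroot b).1 (h Pt.root (acc_refl _) ((hroot a).2 ha))
        · intro c hc
          exact (hmid c b).1 (h (Pt.mid c) (Or.inr (Or.inl rfl)) ((hmid c a).2 hc))
      · rintro ⟨h1, h2⟩ y _ hy
        cases y with
        | root => exact (hroot b).2 (h1 ((hroot a).1 hy))
        | mid c => exact (hmid c b).2 (h2 c ((hmid c a).1 hy))
        | top => exact hy
    have hs : Sat V Pt.root (chi.subst ![MForm.var (p a), MForm.var (p b)]) ↔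
        (E a a ∧ ((E b b ∧ ((¬ E a a → ¬ E b b) ∧ ∀ c, E c a → E c b) ∧
          ((¬ E b b → ¬ E a a) ∧ ∀ c, E c b → E c a)) ∨
          (¬ E b b ∧ ((¬ E a a → ¬ E b b) ∧ ∀ c, E c a → E c b)))) := by
      rw [chi_subst]
      simp only [sat_and, Sat, sat_imp]
      have ra : Sat V Pt.root (MForm.var (p a)) ↔ ¬ E a a := hroot a
      have rb : Sat V Pt.root (MForm.var (p b)) ↔ ¬ E b b := hroot b
      have hab := hbox a b
      have hba := hbox b a
      simp only [Sat] at hab hba
      rw [hroot, hroot, hab, hba]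
      simp only [not_not]
    rw [hs]
    constructor
    · rintro ⟨haa, h | h⟩
      · exact h.2.1.2 a haa
      · exact h.2.2 a haa
    · intro hab
      refine ⟨e1 a b hab, ?_⟩
      by_cases hbb : E b b
      · left
        have hba := e3 a b b hab hbb
        exact ⟨hbb, ⟨fun h => absurd (e1 a b hab) h, fun c hc => e2 c a b hc hab⟩,
          fun h => absurd hbb h, fun c hc => e2 c b a hc hba⟩
      · right
        exact ⟨hbb, fun h => absurd (e1 a b hab) h, fun c hc => e2 c a b hc hab⟩
  have hsat := sound hAx h V Pt.root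
  rw [sat_translate] at hsat
  apply hEφ
  have : (fun a b => Sat V Pt.root (chi.subst ![MForm.var (p a), MForm.var (p b)])) = E := by
    funext a b
    exact propext (hkey a b)
  rw [this] at hsat
  exact hsat

/-- The formula `chi` embeds `L1` in every normal modal logic whose additional axioms are valid
in the frame. -/
theorem embeds {Ax : MForm ℕ → Prop} (hAx : ∀ φ, Ax φ → ∀ V x, Sat V x φ) :
    ∀ p : ℕ → ℕ, Function.Injective p → ∀ φ : LForm, L1 φ ↔ Prov Ax (translate chi p φ) :=
  fun p hp _ => ⟨translate_sound p, translate_faithful hAx p hp⟩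

end Pool.Agent.V11298.OntologyModal
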